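import Pool.Agent.R367.CT.Virt

/-!
# Contracting virtual endomorphisms and wreath recursions on Farrell–Jones groups

`C` is any class of groups with the closure properties `Closed C`, all of which are known for the
class of the groups that satisfy the K-theoretic Farrell–Jones conjecture with coefficients and
finite wreath products.

In (2), `Wr X Γ` is the wreath product of `Γ` with the symmetric group of `X`: its elements are pairs
of a family `s : X → Γ` of sections and a permutation `p` of `X`, with
`(ab).s x = a.s (b.p x) * b.s x`. A sequence of homomorphisms `ψ n : Γ n →* Wr (X n) (Γ (n + 1))` lets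
`Γ 0` act on the tree of the words `x_0 x_1 ... x_m`, `x_i` in `X i`; `State ψ n g m h` says that
`h : Γ m` is one of the sections of `g : Γ n` at the level `m`, and `ActsTrivially ψ n g` that all the
permutations of all the sections of `g` are trivial.

Proof. Let `h` be a deep section of an element of the kernel. Its powers are deep sections of
elements of the kernel too, so they are in a finite set; therefore `h` has finite order and is `1`.
So the kernel is the union of the kernels of the homomorphisms to the iterated wreath products, and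
the faithful quotient is a directed colimit of subgroups of iterated wreath products.
-/

set_option autoImplicit false

namespace Pool.Agent.Results.MP_e40716_gt.ContractingRecursions

open Pool.Agent.Y462.SS Pool.Agent.R367.CT

/-- `ℓ` is a subadditive function on `Γ` with finite balls. -/
def IsProperLength {Γ : Type} [Group Γ] (ℓ : Γ → ℝ) : Prop :=
  (∀ g h, ℓ (g * h) ≤ ℓ g + ℓ h) ∧ ∀ R : ℝ, {g | ℓ g ≤ R}.Finite

/-- The virtual endomorphism `θ : H → Γ` is contracting for the length `ℓ`. -/
def IsContracting {Γ : Type} [Group Γ] (ℓ : Γ → ℝ) (H : Subgroup Γ) (θ : H →* Γ) : Prop :=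
  ∃ ρ c : ℝ, 0 ≤ ρ ∧ ρ < 1 ∧ ∀ h : H, ℓ (θ h) ≤ ρ * ℓ h + c

/-- `L` is a normal subgroup of `Γ` contained in `H` and mapped into itself by `θ`. -/
def IsInvariant {Γ : Type} [Group Γ] (H : Subgroup Γ) (θ : H →* Γ) (L : Subgroup Γ) : Prop :=
  L.Normal ∧ L ≤ H ∧ ∀ (g : Γ) (hg : g ∈ H), g ∈ L → θ ⟨g, hg⟩ ∈ L

/-- The deep sections of the elements `g : Γ 0` which act trivially are in sets `N m` which contain at
most `c` elements acting trivially, and none of these has finite order except `1`. -/
def KernelContracts {X : ℕ → Type} {Γ : ℕ → Type} [∀ n, Group (Γ n)]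
    (ψ : ∀ n, Γ n →* Wr (X n) (Γ (n + 1))) (N : ∀ n, Set (Γ n)) (c : ℕ) : Prop :=
  (∀ n, {h ∈ N n | ActsTrivially ψ n h}.Finite ∧ {h ∈ N n | ActsTrivially ψ n h}.ncard ≤ c) ∧
  (∀ g : Γ 0, ActsTrivially ψ 0 g → ∃ m₀, ∀ m ≥ m₀, ∀ h, State ψ 0 g m h → h ∈ N m) ∧
  ∀ n, ∀ g ∈ N n, ActsTrivially ψ n g → IsOfFinOrder g → g = 1

/-- Let `C` be a class of groups with `Closed C`.

(1) Let `Γ` be a group in `C` with a proper length, `H` a subgroup of finite index and `θ : H → Γ` a
contracting homomorphism. Let `K` be the largest normal subgroup of `Γ` which is contained in `H`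
and mapped into itself by `θ`. If `K` is torsion-free then `Γ / K` is in `C`.

(2) More generally, let `ψ n : Γ n →* Wr (X n) (Γ (n + 1))` be wreath recursions over finite alphabets
of groups in `C`, with `KernelContracts ψ N c` for some sets `N n` and a number `c`. Then the image
of `Γ 0` in the automorphism group of the tree is in `C`. -/
theorem result (C : ∀ (G : Type) [Group G], Prop) (hC : Closed C) :
    (∀ (Γ : Type) [Group Γ] (ℓ : Γ → ℝ) (H : Subgroup Γ) (θ : H →* Γ) (K : Subgroup Γ) [K.Normal],
      C Γ → IsProperLength ℓ → H.FiniteIndex → IsContracting ℓ H θ → IsInvariant H θ K →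
      (∀ L : Subgroup Γ, IsInvariant H θ L → L ≤ K) → (∀ g ∈ K, IsOfFinOrder g → g = 1) →
      C (Γ ⧸ K)) ∧
    (∀ (X Γ : ℕ → Type) [∀ n, Group (Γ n)] (ψ : ∀ n, Γ n →* Wr (X n) (Γ (n + 1)))
      (N : ∀ n, Set (Γ n)) (c : ℕ), (∀ n, Finite (X n)) → (∀ n, C (Γ n)) →
      KernelContracts ψ N c →
      ∀ (G : Type) [Group G] (π : Γ 0 →* G), Function.Surjective π →
        (∀ g, π g = 1 ↔ ActsTrivially ψ 0 g) → C G) := by
  refine ⟨?_, ?_⟩
  · intro Γ _ ℓ H θ K _ hΓ hℓ hH hθ hK hmax htf
    obtain ⟨ρ, c, h0, h1, h2⟩ := hθ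
    exact closed_of_virtual H θ hC hΓ hH ℓ hℓ.1 hℓ.2 ρ c h0 h1 h2 K hK.2.1
      (fun g hg => hK.2.2 g (hK.2.1 hg) hg)
      (fun L hL hLH h => hmax L ⟨hL, hLH, fun g hg hgL => h g hgL⟩) htf
  · intro X Γ _ ψ N c hX hΓ hK G _ π hπ hker
    exact closed_of_dies ψ hC hX hΓ G π hπ hker (dies N c hK.1 hK.2.1 hK.2.2)

end Pool.Agent.Results.MP_e40716_gt.ContractingRecursions
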