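import Pool.Agent.R684.FP.ThreeD

/-!
# Automorphism groups of free products of three groups

`C` is any class of groups with the closure properties `ClosedE C` which contains the groups `F ⋊ Z` for
all free groups `F` and all automorphisms of `F`. All this is published for the class of groups which
satisfy the K-theoretic Farrell–Jones conjecture with coefficients and finite wreath products.

Let `A 0`, `A 1`, `A 2` be nontrivial groups and `N = A 0 * A 1 * A 2`. `Sym3 A` is the group of symmetric
automorphisms of `N` which is generated by

* the automorphisms that map each factor `A i` to itself, and
* the automorphisms that conjugate one factor by an element of another factor and are the identity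
  on the other two factors.

`SymOut3 A` is its image in the group `Out(N)` of outer automorphisms. By the theorem of
Fouxe-Rabinovitch `Sym3 A` is a subgroup of finite index of `Aut(N)` if the factors are freely
indecomposable and not infinite cyclic. In general it consists of automorphisms that preserve the
conjugacy classes of the factors, for instance it is a stabilizer of a free factor system of a
free group if the `A i` are free.

The theorem: `Sym3 A` is in `C` if and only if `SymOut3 A` is in `C`, if and only if the three holomorphs
`A i ⋊ Aut (A i)` are in `C`.

Outline of the proof.

* `EE A = N ⋊ (Aut (A 0) × Aut (A 1) × Aut (A 2))` is in `C` if the holomorphs are: its homomorphism to the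
  product of the holomorphs has a free kernel.
* Let `a ∈ A i` act on `N` by the conjugation by `a⁻¹` on the factor `A (i + 1)`, indices modulo `3`. This and
  the action of the automorphisms of the factors give a homomorphism `La` from `EE A` to `Aut(N)`, and
  `indep` says that `EE A` is mapped injectively to `Out(N)`: for an element `x ≠ 1` of `N` with last letter in
  `A i` the images of the three factors under `La x` are conjugates `g j (A j) (g j)⁻¹` such that in the tree
  of the free product the vertex `g i` lies between the other two. This is the ping-pong `pp` on the
  configurations `g`; it uses only the first letters of reduced words (`hd_tr`).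
* Hence `SymOut3 A` is isomorphic to `EE A`, and `Sym3 A` to `N ⋊ EE A`. The latter is an extension whose
  kernel is the free product `N` and whose elements map each factor of `N` to a conjugate of itself,
  so that it is in `C` by the theorem `main_all` on such extensions.
-/

set_option autoImplicit false

namespace Pool.Agent.Results.MP_e40716_gt.FreeProductAutomorphisms

open Pool.Agent.Y110.FJ Pool.Agent.R684.FP

theorem result (C : ∀ (G : Type) [Group G], Prop) (hC : ClosedE C) (hF : FbC C)
    (A : Fin 3 → Type) [∀ i, Group (A i)] [∀ i, Nontrivial (A i)] :
    List.TFAE [∀ i, C (Holo (A i)), C ↥(SymOut3 A), C ↥(Sym3 A)] :=
  sym3_tfae hC hF A

end Pool.Agent.Results.MP_e40716_gt.FreeProductAutomorphisms
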