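import Pool.Agent.R941.FJ.EdgeHnn

/-!
# Graphs of groups with locally finite edge groups

`C` is a class of groups with the inheritance properties `Closed` of the Farrell–Jones conjecture
(subgroups, finite products, free products, overgroups of finite index, directed colimits with
arbitrary structure maps). `V` (vertex groups) and `E` (edge groups) are classes of groups closed
under isomorphisms, and `C` contains all amalgamated products and HNN extensions with vertex groups
in `V` and edge group in `E` (`Graphs V E C`).

Then `C` contains all amalgamated products and HNN extensions with vertex groups in `V` whose edge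
group is locally in `E`: its finitely generated subgroups are in `E`.

With `V = C` and `E` = finite groups: the class of groups which satisfy the Farrell–Jones conjecture
(with coefficients and finite wreath products) is closed under amalgamated products and HNN extensions
along locally finite subgroups.
-/

set_option autoImplicit false

namespace Pool.Agent.Results.MP_e40716_gt.LocallyFiniteEdgeGroups

open Pool.Agent.R941.FJ
open Pool.Agent.Y110.FJ (Amg)
open Pool.Agent.Y462.SS (Closed)

theorem result {C V E : ∀ (G : Type) [Group G], Prop} (hC : Closed C) (hF : Graphs V E C) :
    (∀ (G : Type) [Group G] (A B K : Subgroup G), Amg A B K →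
      (∀ S : Set G, S.Finite → S ⊆ K → E (Subgroup.closure S)) → V A → V B → C G) ∧
    (∀ (G : Type) [Group G] (A B : Subgroup G) (φ : A ≃* B),
      (∀ S : Set G, S.Finite → S ⊆ A → E (Subgroup.closure S)) → V G →
      C (HNNExtension G A B φ)) :=
  ⟨fun _ _ A B K hA hK h1 h2 => amg_lf A B K hF hC hA hK h1 h2,
    fun _ _ A B φ hA h => hnn_lf A B φ hF hC hA h⟩

end Pool.Agent.Results.MP_e40716_gt.LocallyFiniteEdgeGroups
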