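import Pool.Agent.R630.FJ.Tg
import Pool.Agent.R941.FJ.Edge

/-!
# Embeddings into 2-generated groups inside the Farrell–Jones class

Every countable group `G` embeds in a 2-generated group `K`, torsion-free if `G` is torsion-free, such
that `K` belongs to exactly the same classes `C` with the closure properties `ClosedE C` as `G`. The
class of groups satisfying the K-theoretic Farrell–Jones conjecture with coefficients and finite wreath
products has these closure properties. So there is a single 2-generated group `U` in this class which
contains every finitely presented group in the class, and the conjecture holds for all groups if and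
only if every finitely presented group embeds in `U`.

Outline of the proof. Let `B` be the group of the finite-valued functions `ℤ → G` extended by the shift
`u`. Every function with support `{0}` is a commutator `[u, v]`. In the group of all functions `ℤ → B`
extended by the shift `t` let `f` be the function with `f 0 = u`, `f (3 ^ n) = v n` and `f = 1` elsewhere,
where the commutators `[u, v n]` run through `G`. The commutator of `f` and its translate by `3 ^ n` has
support `{0}` and the value `[u, v n]`. The group generated by `f` and `t` is an extension of a subgroup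
of the restricted wreath product `ℤ ≀ ℤ` by a group of functions with finite support, because far away
from `0` the translates of `f` commute; all finite pieces of the conjugations on the kernel are realized
in the group of the finite-valued functions `ℤ → B` extended by the shift, and the realization criterion
applies.
-/

set_option autoImplicit false

namespace Pool.Agent.Results.MP_e40716_gt.TwoGenerated

open Pool.Agent.Y110.FJ Pool.Agent.R630.FJ
open Pool.Agent.Y462.SS (Closed)

/-- `Γ` is torsion-free -/
def TorsionFree (Γ : Type) [Group Γ] : Prop := ∀ g : Γ, ∀ k : ℕ, 0 < k → g ^ k = 1 → g = 1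

/-- `K` is generated by two elements -/
def TwoGen (K : Type) [Group K] : Prop := ∃ a b : K, Subgroup.closure {a, b} = ⊤

/-- `G` is isomorphic to a subgroup of `K` -/
def Embeds (G K : Type) [Group G] [Group K] : Prop := ∃ f : G →* K, Function.Injective f

/-- the group with `n` generators and the finite set `R` of relators -/
abbrev FinPres (n : ℕ) (R : Finset (FreeGroup (Fin n))) : Type :=
  FreeGroup (Fin n) ⧸ Subgroup.normalClosure (R : Set (FreeGroup (Fin n)))

section sum

variable {C : ∀ (G : Type) [Group G], Prop} {I : Type} (A : I → Type) [∀ i, Group (A i)]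

/-- the restricted direct product -/
def Rdp : Subgroup (∀ i, A i) where
  carrier := {f | {i | f i ≠ 1}.Finite}
  one_mem' := Set.Finite.subset Set.finite_empty (fun i hi => hi rfl)
  mul_mem' := by
    intro f g hf hg
    refine Set.Finite.subset (hf.union hg) fun i hi => ?_
    by_contra h
    rw [Set.mem_union, not_or] at h
    have h1 : f i = 1 := not_not.1 h.1
    have h2 : g i = 1 := not_not.1 h.2
    apply hi
    show f i * g i = 1
    rw [h1, h2, one_mul]
  inv_mem' := by
    intro f hf
    refine Set.Finite.subset hf fun i hi => ?_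
    intro h
    apply hi
    show (f i)⁻¹ = 1
    rw [h, inv_one]

theorem pi_mem (hC : Closed C) (hA : ∀ i, C (A i)) (s : Finset I) : C (∀ i : s, A i) := by
  classical
  induction s using Finset.induction_on with
  | empty =>
    refine hC.of_injective _ (Multiplicative ℤ) 1 (fun a b _ => ?_) hC.int
    funext i
    exact absurd i.2 (Finset.notMem_empty _)
  | insert j s _ ih =>
    let f : (∀ i : (insert j s : Finset I), A i) →* A j × (∀ i : s, A i) :=
      { toFun := fun g => (g ⟨j, Finset.mem_insert_self j s⟩,
          fun i => g ⟨i, Finset.mem_insert_of_mem i.2⟩)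
        map_one' := rfl
        map_mul' := fun _ _ => rfl }
    refine hC.of_injective _ _ f (fun a b hab => ?_) (hC.prod _ _ (hA j) ih)
    obtain ⟨h1, h2⟩ := Prod.mk.inj hab
    funext i
    obtain ⟨i, hi⟩ := i
    rcases Finset.mem_insert.1 hi with h | h
    · subst h; exact h1
    · exact congrFun h2 ⟨i, h⟩

/-- the functions supported in `s` -/
def supp (s : Finset I) : Subgroup (Rdp A) where
  carrier := {f | ∀ i, i ∉ s → (f : ∀ i, A i) i = 1}
  one_mem' := fun i _ => rfl
  mul_mem' := by
    intro f g hf hg i hi
    show (f : ∀ i, A i) i * (g : ∀ i, A i) i = 1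
    rw [hf i hi, hg i hi, one_mul]
  inv_mem' := by
    intro f hf i hi
    show ((f : ∀ i, A i) i)⁻¹ = 1
    rw [hf i hi, inv_one]

/-- the restriction -/
def res (s : Finset I) : supp A s →* ∀ i : s, A i where
  toFun g i := ((g : Rdp A) : ∀ i, A i) i
  map_one' := rfl
  map_mul' := fun _ _ => rfl

theorem res_injective (s : Finset I) : Function.Injective (res A s) := by
  intro a b hab
  apply Subtype.ext
  apply Subtype.ext
  funext i
  by_cases hi : i ∈ s
  · exact congrFun hab ⟨i, hi⟩
  · rw [a.2 i hi, b.2 i hi]

theorem exists_supp (f : Rdp A) : ∃ s, f ∈ supp A s :=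
  ⟨f.2.toFinset, fun i hi => by
    by_contra h
    exact hi (f.2.mem_toFinset.2 h)⟩

theorem rdp_mem (hC : Closed C) (hA : ∀ i, C (A i)) : C (Rdp A) := by
  classical
  refine Pool.Agent.Y430.SS.of_directed hC (Rdp A) (Finset I)
    (fun i j => ⟨i ∪ j, Finset.subset_union_left, Finset.subset_union_right⟩) (supp A) ?_
    (exists_supp A) ?_
  · intro s t hst f hf i hi
    exact hf i (fun h => hi (hst h))
  · intro s
    exact hC.of_injective _ _ (res A s) (res_injective A s) (pi_mem A hC hA s)

theorem rdp_countable [Countable I] (hA : ∀ i, Countable (A i)) : Countable (Rdp A) := by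
  have h1 : Function.Surjective (fun x : Σ s : Finset I, supp A s => (x.2 : Rdp A)) := by
    intro f
    obtain ⟨s, hs⟩ := exists_supp A f
    exact ⟨⟨s, f, hs⟩, rfl⟩
  have h2 : ∀ s : Finset I, Countable (supp A s) := fun s => (res_injective A s).countable
  exact h1.countable

theorem embeds_rdp (i : I) : Embeds (A i) (Rdp A) := by
  classical
  refine ⟨(MonoidHom.mulSingle A i).codRestrict (Rdp A) fun x => ?_, fun x y hxy => ?_⟩
  · refine Set.Finite.subset (Set.finite_singleton i) fun j hj => ?_
    by_contra h
    exact hj (Pi.mulSingle_eq_of_ne h x)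
  · have h1 := congrFun (congrArg Subtype.val hxy) i
    have h2 : (Pi.mulSingle i x : ∀ i, A i) i = (Pi.mulSingle i y : ∀ i, A i) i := h1
    rwa [Pi.mulSingle_eq_same, Pi.mulSingle_eq_same] at h2

theorem rdp_tf (hA : ∀ i, TF (A i)) : TF (Rdp A) := by
  intro f k hk hf
  apply Subtype.ext
  funext i
  exact hA i _ k hk (congrFun (congrArg Subtype.val hf) i)

end sum

/-- all groups are in a class which contains the finitely presented groups -/
theorem all_of_fp {C : ∀ (G : Type) [Group G], Prop} (hC : Closed C)
    (h : ∀ (n : ℕ) (R : Finset (FreeGroup (Fin n))), C (FinPres n R)) (G : Type) [Group G] : C G := by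
  classical
  refine Pool.Agent.Y430.SS.of_directed hC G (Finset G)
    (fun i j => ⟨i ∪ j, Finset.subset_union_left, Finset.subset_union_right⟩)
    (fun s => Subgroup.closure (s : Set G)) ?_ ?_ ?_
  · intro s t hst
    exact Subgroup.closure_mono (by exact_mod_cast hst)
  · intro g
    exact ⟨{g}, Subgroup.subset_closure (by simp)⟩
  · intro s
    -- the closure is a quotient of a free group of finite rank
    let e := s.equivFin
    let q : FreeGroup (Fin s.card) →* G := FreeGroup.lift fun i => (e.symm i : G)
    have hq : q.range = Subgroup.closure (s : Set G) := by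
      rw [FreeGroup.range_lift_eq_closure]
      congr 1
      ext x
      constructor
      · rintro ⟨i, rfl⟩
        exact (e.symm i).2
      · intro hx
        refine ⟨e ⟨x, hx⟩, ?_⟩
        show ((e.symm (e ⟨x, hx⟩) : s) : G) = x
        rw [e.symm_apply_apply]
    rw [← hq]
    have h1 : C (FreeGroup (Fin s.card) ⧸ Subgroup.normalClosure
        (⋃ R : Finset q.ker, (Subtype.val '' (R : Set q.ker) : Set (FreeGroup (Fin s.card))))) := by
      refine Pool.Agent.R941.FJ.colim_quot hC
        (fun i j => ⟨i ∪ j, Finset.subset_union_left, Finset.subset_union_right⟩) _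
        (fun i j hij => Set.image_mono (by exact_mod_cast hij)) fun R => ?_
      have h2 := h s.card (R.image Subtype.val)
      unfold FinPres at h2
      rwa [Finset.coe_image] at h2
    have h2 : (⋃ R : Finset q.ker, (Subtype.val '' (R : Set q.ker) : Set (FreeGroup (Fin s.card)))) =
        (q.ker : Set (FreeGroup (Fin s.card))) := by
      ext x
      simp only [Set.mem_iUnion]
      constructor
      · rintro ⟨R, y, _, rfl⟩
        exact y.2
      · intro hx
        exact ⟨{⟨x, hx⟩}, ⟨x, hx⟩, by simp, rfl⟩
    rw [h2] at h1
    have h3 : Subgroup.normalClosure (q.ker : Set (FreeGroup (Fin s.card))) = q.ker :=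
      Subgroup.normalClosure_eq_self q.ker
    have e1 : (FreeGroup (Fin s.card) ⧸ q.ker) ≃* q.range := QuotientGroup.quotientKerEquivRange q
    have e2 : (FreeGroup (Fin s.card) ⧸ q.ker) ≃*
        (FreeGroup (Fin s.card) ⧸ Subgroup.normalClosure (q.ker : Set (FreeGroup (Fin s.card)))) :=
      QuotientGroup.quotientMulEquivOfEq h3.symm
    exact hC.of_injective _ _ (e1.symm.trans e2).toMonoidHom (MulEquiv.injective _) h1

/-- (1) Every countable group `G` embeds in a 2-generated group `K`, torsion-free if `G` is, which is in
a class `C` with the closure properties `ClosedE C` if and only if `G` is.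
(2) Let `C` be such a class. For every countable family of countable groups in `C` there is a 2-generated
group in `C` which contains them all, torsion-free if they are.
(3) There is a 2-generated group `U` in `C` which contains all finitely presented groups in `C`, and all
groups are in `C` if and only if `U` contains all finitely presented groups. -/
theorem result :
    (∀ (G : Type) [Group G] [Countable G], ∃ (K : Type) (_ : Group K), Embeds G K ∧ TwoGen K ∧
      (TorsionFree G → TorsionFree K) ∧
      ∀ C : ∀ (G : Type) [Group G], Prop, ClosedE C → (C K ↔ C G)) ∧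
    (∀ C : ∀ (G : Type) [Group G], Prop, ClosedE C → ∀ (I : Type) [Countable I] (A : I → Type)
      [∀ i, Group (A i)] [∀ i, Countable (A i)], (∀ i, C (A i)) →
      ∃ (K : Type) (_ : Group K), C K ∧ TwoGen K ∧ (∀ i, Embeds (A i) K) ∧
        ((∀ i, TorsionFree (A i)) → TorsionFree K)) ∧
    (∀ C : ∀ (G : Type) [Group G], Prop, ClosedE C → ∃ (U : Type) (_ : Group U), C U ∧ TwoGen U ∧
      (∀ (n : ℕ) (R : Finset (FreeGroup (Fin n))), C (FinPres n R) → Embeds (FinPres n R) U) ∧
      ((∀ (G : Type) [Group G], C G) ↔
        ∀ (n : ℕ) (R : Finset (FreeGroup (Fin n))), Embeds (FinPres n R) U)) := by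
  have p1 : ∀ (G : Type) [Group G] [Countable G], ∃ (K : Type) (_ : Group K), Embeds G K ∧ TwoGen K ∧
      (TorsionFree G → TorsionFree K) ∧
      ∀ C : ∀ (G : Type) [Group G], Prop, ClosedE C → (C K ↔ C G) := by
    intro G _ _
    obtain ⟨K, iK, f, a, b, hf, hab, htf, hC⟩ := two_gen G
    exact ⟨K, iK, ⟨f, hf⟩, ⟨a, b, hab⟩, htf, fun C hCl =>
      ⟨hCl.base.of_injective _ _ f hf, hC C hCl⟩⟩
  have p2 : ∀ C : ∀ (G : Type) [Group G], Prop, ClosedE C → ∀ (I : Type) [Countable I] (A : I → Type)
      [∀ i, Group (A i)] [∀ i, Countable (A i)], (∀ i, C (A i)) →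
      ∃ (K : Type) (_ : Group K), C K ∧ TwoGen K ∧ (∀ i, Embeds (A i) K) ∧
        ((∀ i, TorsionFree (A i)) → TorsionFree K) := by
    intro C hC I _ A _ hcount hA
    have := rdp_countable A hcount
    obtain ⟨K, iK, ⟨f, hf⟩, h2, h3, h4⟩ := p1 (Rdp A)
    refine ⟨K, iK, (h4 C hC).2 (rdp_mem A hC.base hA), h2, fun i => ?_, fun h => h3 (rdp_tf A h)⟩
    obtain ⟨j, hj⟩ := embeds_rdp A i
    exact ⟨f.comp j, hf.comp hj⟩
  refine ⟨p1, p2, fun C hC => ?_⟩
  have hcount : ∀ x : {x : Σ n : ℕ, Finset (FreeGroup (Fin n)) // C (FinPres x.1 x.2)},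
      Countable (FinPres x.1.1 x.1.2) := fun x =>
    (QuotientGroup.mk_surjective (s := Subgroup.normalClosure
      (x.1.2 : Set (FreeGroup (Fin x.1.1))))).countable
  obtain ⟨U, iU, hU, h2, h3, -⟩ := p2 C hC
    {x : Σ n : ℕ, Finset (FreeGroup (Fin n)) // C (FinPres x.1 x.2)} (fun x => FinPres x.1.1 x.1.2)
    (fun x => x.2)
  refine ⟨U, iU, hU, h2, fun n R h => h3 ⟨⟨n, R⟩, h⟩, fun h n R => h3 ⟨⟨n, R⟩, h _⟩, fun h G _ => ?_⟩
  refine all_of_fp hC.base (fun n R => ?_) G
  obtain ⟨f, hf⟩ := h n R
  exact hC.base.of_injective _ _ f hf hU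

end Pool.Agent.Results.MP_e40716_gt.TwoGenerated
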